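import Mathlib
import Pool.Agent.W608.Rank4
import Pool.Agent.H852.QP.Neg

set_option autoImplicit false

/-!
# The degree of a negative curve is bounded by its largest multiplicity

For all `s` and very general points `P 1, …, P s` of the complex projective plane: if a plane curve
of degree `d` has multiplicity at least `μ i` at the points, where `μ i ≤ m` and `m ≥ 2`, and
`d ^ 2 < ∑ μ i ^ 2`, then `d < D` and `∑ (μ i + 1).choose 2 < (D + 2).choose 2`, where
`D = (m + 1) (2 m ^ 2 + 6 m + 5)`. So the negative curves with multiplicities at most `m` have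
finitely many numerical types, for all numbers `s` of points together.
-/

namespace Pool.Agent.Results.MP_d3e5c7_ag.DegreeOfNegativeCurves

open MvPolynomial

/-- The homogeneous ideal of the point `(p 0 : p 1 : 1)`. -/
noncomputable def ptIdeal (p : Fin 2 → ℂ) : Ideal (MvPolynomial (Fin 3) ℂ) :=
  Ideal.span ({X 0 - C (p 0) * X 2, X 1 - C (p 1) * X 2} : Set (MvPolynomial (Fin 3) ℂ))

/-- The self-intersection of the class `d H - ∑ μ i E i`. -/
noncomputable def selfInt {s : ℕ} (d : ℕ) (μ : Fin s → ℕ) : ℝ :=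
  (d : ℝ) ^ 2 - ∑ i, (μ i : ℝ) ^ 2

/-- The degree bound. -/
def bound (m : ℕ) : ℕ := (m + 1) * (2 * m ^ 2 + 6 * m + 5)

/-- The system is not empty, so the number of conditions is small. -/
theorem cond_lt {s d : ℕ} {P : Fin s → Fin 2 → ℂ} {w : Fin s → ℕ}
    {F : MvPolynomial (Fin 3) ℂ} (h1 : Pool.Agent.H932R3.ExpDim ℂ w P d) (hF0 : F ≠ 0)
    (hFd : F.IsHomogeneous d)
    (hF : ∀ i, F ∈ (Ideal.span ({X 0 - C (P i 0) * X 2, X 1 - C (P i 1) * X 2} :
        Set (MvPolynomial (Fin 3) ℂ))) ^ (w i)) :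
    ∑ i, (w i + 1).choose 2 + 1 ≤ (d + 2).choose 2 := by
  unfold Pool.Agent.H932R3.ExpDim at h1
  have h2 : 0 < Module.finrank ℂ
      ↥(MvPolynomial.homogeneousSubmodule (Fin 3) ℂ d ⊓
        Submodule.restrictScalars ℂ
          (⨅ i : Fin s,
            (Ideal.span
              ({MvPolynomial.X 0 - MvPolynomial.C (P i 0) * MvPolynomial.X 2,
                MvPolynomial.X 1 - MvPolynomial.C (P i 1) * MvPolynomial.X 2} :
                Set (MvPolynomial (Fin 3) ℂ))) ^ (w i))) := by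
    have h3 : Module.Finite ℂ ↥(MvPolynomial.homogeneousSubmodule (Fin 3) ℂ d) :=
      Module.Finite.iff_fg.2 (MvPolynomial.homogeneousSubmodule_fg _ _ d)
    have h4 := Submodule.finiteDimensional_of_le
      (S₁ := MvPolynomial.homogeneousSubmodule (Fin 3) ℂ d ⊓
        Submodule.restrictScalars ℂ
          (⨅ i : Fin s,
            (Ideal.span
              ({MvPolynomial.X 0 - MvPolynomial.C (P i 0) * MvPolynomial.X 2,
                MvPolynomial.X 1 - MvPolynomial.C (P i 1) * MvPolynomial.X 2} :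
                Set (MvPolynomial (Fin 3) ℂ))) ^ (w i)))
      (S₂ := MvPolynomial.homogeneousSubmodule (Fin 3) ℂ d) inf_le_left
    rw [Module.finrank_pos_iff]
    refine ⟨⟨⟨F, Submodule.mem_inf.2 ⟨hFd, ?_⟩⟩, 0, fun h5 => hF0 ?_⟩⟩
    · rw [Submodule.restrictScalars_mem, Ideal.mem_iInf]
      exact hF
    · exact congrArg Subtype.val h5
  rw [h1] at h2
  omega

/-- The arithmetic. -/
theorem arith {s d m : ℕ} {w : Fin s → ℕ} (hw : ∀ i, w i ≤ m) (hd : 3 * m ≤ d)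
    (h : ∑ i, (w i + 1).choose 2 + 1 ≤ (d + 2).choose 2) :
    ∑ i, (w i : ℝ) ^ 2 ≤ (d : ℝ) ^ 2 := by
  have h4 : (((∑ i, (w i + 1).choose 2 + 1 : ℕ)) : ℝ) ≤ (((d + 2).choose 2 : ℕ) : ℝ) := by
    exact_mod_cast h
  push_cast at h4
  have e1 : (((d + 2).choose 2 : ℕ) : ℝ) = ((d : ℝ) + 2) * (d + 1) / 2 := by
    rw [Nat.cast_choose_two]
    push_cast
    ring
  have e2 : ∀ i, (((w i + 1).choose 2 : ℕ) : ℝ) = ((w i : ℝ) ^ 2 + w i) / 2 := by
    intro i
    rw [Nat.cast_choose_two]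
    push_cast
    ring
  have e3 : ∑ i, (((w i + 1).choose 2 : ℕ) : ℝ) =
      (∑ i, (w i : ℝ) ^ 2 + ∑ i, (w i : ℝ)) / 2 := by
    rw [Finset.sum_congr rfl fun i _ => e2 i, ← Finset.sum_div, Finset.sum_add_distrib]
  rw [e1, e3] at h4
  have h5 : ∑ i, (w i : ℝ) ^ 2 ≤ m * ∑ i, (w i : ℝ) := by
    rw [Finset.mul_sum]
    refine Finset.sum_le_sum fun i _ => ?_
    have h6 : (w i : ℝ) ≤ m := by exact_mod_cast hw i
    have h7 : (0 : ℝ) ≤ w i := Nat.cast_nonneg _
    nlinarith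
  have hdR : 3 * (m : ℝ) ≤ d := by exact_mod_cast hd
  have hm0 : (0 : ℝ) ≤ m := Nat.cast_nonneg m
  by_contra hcon
  push Not at hcon
  obtain ⟨Q, hQ⟩ : ∃ Q, Q = ∑ i, (w i : ℝ) ^ 2 := ⟨_, rfl⟩
  obtain ⟨S, hS⟩ : ∃ S, S = ∑ i, (w i : ℝ) := ⟨_, rfl⟩
  rw [← hQ, ← hS] at h4 h5
  rw [← hQ] at hcon
  have h6 : S ≤ 3 * d := by nlinarith
  have h7 : (m : ℝ) * S ≤ m * (3 * d) := mul_le_mul_of_nonneg_left h6 hm0
  have hd0 : (0 : ℝ) ≤ d := Nat.cast_nonneg d
  have h8 : (3 * (m : ℝ)) * d ≤ d * d := mul_le_mul_of_nonneg_right hdR hd0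
  nlinarith

theorem result (s : ℕ) :
    ∃ G : ℕ → MvPolynomial (Fin s × Fin 2) ℂ, (∀ j, G j ≠ 0) ∧
      ∀ P : Fin s → Fin 2 → ℂ,
        (∀ j, MvPolynomial.eval (fun ij : Fin s × Fin 2 => P ij.1 ij.2) (G j) ≠ 0) →
        ∀ (d m : ℕ) (μ : Fin s → ℕ) (F : MvPolynomial (Fin 3) ℂ), F ≠ 0 → F.IsHomogeneous d →
          (∀ i, F ∈ ptIdeal (P i) ^ μ i) → 2 ≤ m → (∀ i, μ i ≤ m) → selfInt d μ < 0 →
            d < bound m ∧ ∑ i, (μ i + 1).choose 2 < (bound m + 2).choose 2 := by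
  obtain ⟨G, hG, hG'⟩ := Pool.Agent.H852.QP.exists_familyQ (Fin s × Fin 2)
  refine ⟨G, hG, fun P hP d m μ F hF0 hFd hF hm hμ hneg => ?_⟩
  have hind := hG' _ hP
  obtain ⟨H, hH, hH'⟩ := Pool.Agent.W608.exp_large ℂ m hm μ hμ (bound m) (by
    unfold bound
    exact le_of_eq (by ring))
  have hH2 : aeval (fun ij : Fin s × Fin 2 => P ij.1 ij.2) H ≠ (0 : ℂ) := by
    intro h0
    exact hH ((algebraicIndependent_iff.1 hind) H h0)
  have key := hH' P hH2 d
  have h3m : 3 * m ≤ bound m := by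
    unfold bound
    nlinarith
  have hlt : ¬ bound m ≤ d := by
    intro hd
    have h1 := cond_lt (key (Or.inl hd)) hF0 hFd hF
    have h2 := arith hμ (h3m.trans hd) h1
    unfold selfInt at hneg
    linarith
  refine ⟨by omega, ?_⟩
  by_contra hcon
  push Not at hcon
  have h1 := cond_lt (key (Or.inr hcon)) hF0 hFd hF
  have h2 : (d + 2).choose 2 ≤ (bound m + 2).choose 2 := Nat.choose_le_choose 2 (by omega)
  omega

end Pool.Agent.Results.MP_d3e5c7_ag.DegreeOfNegativeCurves
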